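import Pool.Agent.H.MP_96aaf1_al.Structure

/-!
# `R~` is a left congruence on graph products
-/

set_option linter.unusedSectionVars false

namespace Pool.Agent.Results.MP_96aaf1_al.GraphProductLeftCongruence

open Pool.Agent.H.MP_96aaf1_al

universe u v

variable {V : Type u} {Γ : SimpleGraph V} {M : V → Type v} [∀ α, Monoid (M α)]

lemma mrg_split {k l m : List (Σ α, M α)} (h : Mrg Γ k l m) {α : V} (hl : hd Γ α l ≠ 1) :
    ∃ k1 k2 : List (Σ α, M α), ∃ f : M α, k = k1 ++ ⟨α, f⟩ :: k2 ∧ AllAdj Γ α k1 ∧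
      AllAdj Γ α k2 := by
  induction h with
  | nil => exact absurd rfl hl
  | @cons β p q k l m hadj _ ih =>
    by_cases hβ : β = α
    · subst hβ
      exact ⟨[], k, p, rfl, allAdj_nil _, hadj⟩
    · by_cases h2 : Γ.Adj α β
      · rw [hd_adj h2] at hl
        obtain ⟨k1, k2, f, rfl, hk1, hk2⟩ := ih hl
        exact ⟨⟨β, p⟩ :: k1, k2, f, rfl, allAdj_cons.mpr ⟨h2, hk1⟩, hk2⟩
      · rw [hd_block hβ h2] at hl
        exact absurd rfl hl

lemma inv_split {v u : List (Σ α, M α)} (h : Inv v u) {α : V} (hu : hd Γ α u ≠ 1) :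
    ∃ (v1 : List (Σ α, M α)) (q : M α), Sh Γ v (v1 ++ [⟨α, q⟩]) ∧ q * hd Γ α u = 1 := by
  induction h with
  | nil => exact absurd rfl hu
  | @cons β q p v u hqp hvu ih =>
    by_cases h1 : AllAdj Γ α u
    · rw [hd_append_of_allAdj h1] at hu ⊢
      by_cases hβ : β = α
      · subst hβ
        refine ⟨v, q, ?_, by rw [hd_same]; exact hqp⟩
        have := Sh.move (a := ⟨β, q⟩) (hvu.allAdj h1) ([] : List (Σ α, M α))
        rwa [List.append_nil] at this
      · by_cases h2 : Γ.Adj α β
        · rw [hd_adj h2] at hu; exact absurd rfl hu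
        · rw [hd_block hβ h2] at hu; exact absurd rfl hu
    · rw [hd_append_of_not h1] at hu ⊢
      obtain ⟨v1, q', h3, h4⟩ := ih hu
      exact ⟨⟨β, q⟩ :: v1, q', Sh.cons _ h3, h4⟩

lemma mem_fst_of_hd {u : List (Σ α, M α)} {α : V} (hu : hd Γ α u ≠ 1) :
    α ∈ u.map Sigma.fst := by
  induction u with
  | nil => exact absurd rfl hu
  | cons a u ih =>
    rcases letter_cases Γ α a with ⟨m, rfl⟩ | h1 | ⟨h1, h2⟩
    · simp
    · rw [hd_adj h1] at hu
      rw [List.map_cons]
      exact List.mem_cons_of_mem _ (ih hu)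
    · rw [hd_block h1 h2] at hu; exact absurd rfl hu

/-- The structure of idempotents fixing an element with nontrivial `α`-head. -/
theorem fixer_structure {α : V} {e X : GraphProduct Γ M} (heX : e * X = X)
    (hs : H α X ≠ 1) :
    (∃ f : M α, ∃ h ∈ C Γ M α, e = ι Γ α f * h) ∨
      (∃ q : M α, q * H α X = 1 ∧ ∃ e', e = ι Γ α (H α X) * (e' * ι Γ α q)) := by
  classical
  obtain ⟨x, hx, rfl⟩ := exists_red e
  obtain ⟨y, hy, rfl⟩ := exists_red X
  rw [H_mk α hy] at hs ⊢
  obtain ⟨x', k, v, u, l, m, y', h1, h2, h3, h4, h5⟩ := product_structure x y hx hy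
  have hz : Sh Γ (x' ++ (m ++ y')) y := by
    refine sh_of_mk_eq h5 hy ?_
    rw [← heX, h1.mk_eq, h2.mk_eq]
    simp only [mk_append]
    rw [← h4.mk_eq]
    have e1 : mk Γ v * mk Γ u = 1 := h3.mk_eq
    calc mk Γ x' * (mk Γ k * mk Γ l * mk Γ y')
        = mk Γ x' * mk Γ k * 1 * (mk Γ l * mk Γ y') := by simp only [mul_one, mul_assoc]
      _ = mk Γ x' * mk Γ k * (mk Γ v * mk Γ u) * (mk Γ l * mk Γ y') := by rw [e1]
      _ = mk Γ x' * (mk Γ k * mk Γ v) * (mk Γ u * (mk Γ l * mk Γ y')) := by
          simp only [mul_assoc]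
  have hz2 : Sh Γ (x' ++ (m ++ y')) (u ++ (l ++ y')) := hz.trans h2
  have hcount : ∀ β : V, (x'.map Sigma.fst).count β = (u.map Sigma.fst).count β := by
    intro β
    have hp := (hz2.perm.map Sigma.fst).count_eq β
    simp only [List.map_append, List.count_append, h4.fst_eq.2] at hp
    omega
  have hmem : ∀ β : V, β ∈ x'.map Sigma.fst ↔ β ∈ u.map Sigma.fst := by
    intro β
    rw [← List.count_pos_iff, ← List.count_pos_iff, hcount]
  have hhd : hd Γ α (u ++ (l ++ y')) = hd Γ α y := (h2.hd_eq α).symm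
  have hmkx : mk Γ x = mk Γ x' * (mk Γ k * mk Γ v) := h1.mk_eq
  by_cases hu : AllAdj Γ α u
  · left
    have hx' : AllAdj Γ α x' := by
      intro b hb
      have : b.1 ∈ u.map Sigma.fst := (hmem b.1).mp (List.mem_map_of_mem hb)
      obtain ⟨b', hb', hb1⟩ := List.mem_map.mp this
      rw [← hb1]; exact hu b' hb'
    have hv : AllAdj Γ α v := h3.allAdj hu
    rw [hd_append_of_allAdj hu] at hhd
    by_cases hl : AllAdj Γ α l
    · have hk : AllAdj Γ α k := by rw [allAdj_iff_fst h4.fst_eq.1]; exact hl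
      refine ⟨1, mk Γ x, ?_, by rw [map_one, one_mul]⟩
      rw [hmkx]
      exact (C Γ M α).mul_mem (mk_mem_C hx') ((C Γ M α).mul_mem (mk_mem_C hk) (mk_mem_C hv))
    · rw [hd_append_of_not hl] at hhd
      obtain ⟨k1, k2, f, hk, hk1, hk2⟩ := mrg_split h4 (by rw [hhd]; exact hs)
      have hc : mk Γ x' * mk Γ k1 ∈ C Γ M α :=
        (C Γ M α).mul_mem (mk_mem_C hx') (mk_mem_C hk1)
      refine ⟨f, mk Γ x' * mk Γ k1 * (mk Γ k2 * mk Γ v),
        (C Γ M α).mul_mem hc ((C Γ M α).mul_mem (mk_mem_C hk2) (mk_mem_C hv)), ?_⟩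
      have hcomm := (C_facts hc).2.2 f
      rw [hmkx, hk]
      have e2 : mk Γ (k1 ++ ⟨α, f⟩ :: k2) = mk Γ k1 * (ι Γ α f * mk Γ k2) := rfl
      rw [e2]
      calc mk Γ x' * (mk Γ k1 * (ι Γ α f * mk Γ k2) * mk Γ v)
          = (mk Γ x' * mk Γ k1 * ι Γ α f) * (mk Γ k2 * mk Γ v) := by simp only [mul_assoc]
        _ = ι Γ α f * (mk Γ x' * mk Γ k1 * (mk Γ k2 * mk Γ v)) := by
            rw [hcomm]; simp only [mul_assoc]
  · right
    rw [hd_append_of_not hu] at hhd
    have hαu : α ∈ u.map Sigma.fst := mem_fst_of_hd (Γ := Γ) (by rw [hhd]; exact hs)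
    have hαx : α ∈ x'.map Sigma.fst := (hmem α).mpr hαu
    have hx' : ¬ AllAdj Γ α x' := by
      intro hcon
      obtain ⟨b, hb, hb1⟩ := List.mem_map.mp hαx
      have := hcon b hb
      rw [hb1] at this
      exact Γ.irrefl this
    have hhdx : hd Γ α x' = hd Γ α y := by
      rw [← hd_append_of_not hx' (m ++ y'), hz.hd_eq α]
    obtain ⟨v1, q, hv1, hq⟩ := inv_split (Γ := Γ) h3 (α := α) (by rw [hhd]; exact hs)
    rw [hhd] at hq
    refine ⟨q, hq, mk Γ (tl Γ α x') * (mk Γ k * mk Γ v1), ?_⟩
    have hx'2 : Sh Γ x' (⟨α, hd Γ α y⟩ :: tl Γ α x') := by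
      have := sh_hd_tl (Γ := Γ) (α := α) (l := x') (by rw [hhdx]; exact hs)
      rwa [hhdx] at this
    have e3 : mk Γ x' = ι Γ α (hd Γ α y) * mk Γ (tl Γ α x') := hx'2.mk_eq
    have e4 : mk Γ v = mk Γ v1 * ι Γ α q := hv1.mk_eq
    rw [hmkx, e3, e4]
    simp only [mul_assoc]

/-- `R~`-related elements of the graph product have `R~`-related heads. -/
lemma rTilde_H {a b : GraphProduct Γ M} (hab : RTilde (GraphProduct Γ M) a b) (α : V) :
    RTilde (M α) (H α a) (H α b) := by
  have key : ∀ (f : M α) (x : GraphProduct Γ M), f * H α x = H α x ↔ ι Γ α f * x = x := by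
    intro f x
    constructor
    · intro h
      have h2 := decomp α x
      calc ι Γ α f * x = ι Γ α f * (ι Γ α (H α x) * T α x) := by rw [h2]
        _ = ι Γ α (f * H α x) * T α x := by rw [← mul_assoc, ← map_mul]
        _ = x := by rw [h, h2]
    · intro h
      rw [← H_ι_mul, h]
  intro f hf
  rw [key, key]
  exact hab (ι Γ α f) (by rw [← map_mul, hf])

lemma one_direction (h : ∀ α, IsLeftCongruence (RTilde (M α))) {a b : GraphProduct Γ M}
    (hab : RTilde (GraphProduct Γ M) a b) {α : V} (c : M α) {e : GraphProduct Γ M}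
    (he : e * e = e) (hfix : e * (ι Γ α c * a) = ι Γ α c * a) :
    e * (ι Γ α c * b) = ι Γ α c * b := by
  have hHc : RTilde (M α) (c * H α a) (c * H α b) := (h α).2 _ _ c (rTilde_H hab α)
  have ha := decomp α a
  have hb := decomp α b
  by_cases hs : c * H α a = 1
  · -- the head is trivial: `e'' = a_α e c` fixes `a`
    have hidem : (ι Γ α (H α a) * (e * ι Γ α c)) * (ι Γ α (H α a) * (e * ι Γ α c)) =
        ι Γ α (H α a) * (e * ι Γ α c) := by
      calc (ι Γ α (H α a) * (e * ι Γ α c)) * (ι Γ α (H α a) * (e * ι Γ α c))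
          = ι Γ α (H α a) * (e * (ι Γ α (c * H α a) * (e * ι Γ α c))) := by
            rw [map_mul]; simp only [mul_assoc]
        _ = ι Γ α (H α a) * (e * e * ι Γ α c) := by
            rw [hs, map_one, one_mul, mul_assoc]
        _ = _ := by rw [he]
    have hca : ι Γ α c * a = T α a := by
      conv_lhs => rw [← ha]
      rw [← mul_assoc, ← map_mul, hs, map_one, one_mul]
    have hfa : ι Γ α (H α a) * (e * ι Γ α c) * a = a := by
      calc ι Γ α (H α a) * (e * ι Γ α c) * a
          = ι Γ α (H α a) * (e * (ι Γ α c * a)) := by simp only [mul_assoc]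
        _ = ι Γ α (H α a) * T α a := by rw [hfix, hca]
        _ = a := ha
    have hfb := (hab _ hidem).mp hfa
    calc e * (ι Γ α c * b)
        = 1 * (e * (ι Γ α c * b)) := by rw [one_mul]
      _ = ι Γ α (c * H α a) * (e * (ι Γ α c * b)) := by rw [hs, map_one]
      _ = ι Γ α c * (ι Γ α (H α a) * (e * ι Γ α c) * b) := by
          rw [map_mul]; simp only [mul_assoc]
      _ = ι Γ α c * b := by rw [hfb]
  · have hH : H α (ι Γ α c * a) = c * H α a := H_ι_mul α c a
    rcases fixer_structure (α := α) hfix (by rw [hH]; exact hs) with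
      ⟨f, g, hg, rfl⟩ | ⟨q, hq, e', he'⟩
    · -- `e = f g` with `f ∈ M α`, `g` in the centralizing submonoid
      have hC := C_facts hg
      have hHg : H α g = 1 := by
        have := hC.1 1
        rwa [mul_one, H_one] at this
      have hTg : T α g = g := T_of_H_eq_one hHg
      have hsq : ι Γ α (f * f) * (g * g) = ι Γ α f * g := by
        rw [map_mul]
        calc ι Γ α f * ι Γ α f * (g * g) = ι Γ α f * (ι Γ α f * g) * g := by
              simp only [mul_assoc]
          _ = ι Γ α f * (g * ι Γ α f) * g := by rw [hC.2.2]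
          _ = ι Γ α f * g * (ι Γ α f * g) := by simp only [mul_assoc]
          _ = ι Γ α f * g := he
      have hHgg : H α (g * g) = 1 := by rw [hC.1, hHg]
      have hff : f * f = f := by
        have := congrArg (H α) hsq
        rwa [H_ι_mul, H_ι_mul, hHgg, hHg, mul_one, mul_one] at this
      have hgg : g * g = g := by
        have := congrArg (T α) hsq
        rwa [T_ι_mul, T_ι_mul, hTg, T_of_H_eq_one hHgg] at this
      -- the element `e (c a) = (f c a_α) (g w)`
      have hcomp : ∀ x : GraphProduct Γ M, ι Γ α f * g * (ι Γ α c * x) =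
          ι Γ α (f * (c * H α x)) * (g * T α x) := by
        intro x
        calc ι Γ α f * g * (ι Γ α c * x)
            = ι Γ α f * (g * ι Γ α c) * (ι Γ α (H α x) * T α x) := by
              rw [decomp α x]; simp only [mul_assoc]
          _ = ι Γ α f * ι Γ α c * (g * ι Γ α (H α x)) * T α x := by
              rw [hC.2.2]; simp only [mul_assoc]
          _ = ι Γ α (f * (c * H α x)) * (g * T α x) := by
              rw [hC.2.2, map_mul, map_mul]; simp only [mul_assoc]
      have hHgT : ∀ x : GraphProduct Γ M, H α (g * T α x) = 1 := by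
        intro x; rw [hC.1, H_T]
      have h1 : f * (c * H α a) = c * H α a := by
        have := congrArg (H α) hfix
        rwa [hcomp, H_ι_mul, hHgT, mul_one, hH] at this
      have h2 : g * T α a = T α a := by
        have := congrArg (T α) hfix
        rwa [hcomp, T_ι_mul, T_of_H_eq_one (hHgT a), T_ι_mul] at this
      have h3 : f * (c * H α b) = c * H α b := (hHc f hff).mp h1
      have hga : g * a = a := by
        calc g * a = g * ι Γ α (H α a) * T α a := by rw [mul_assoc, ha]
          _ = ι Γ α (H α a) * (g * T α a) := by rw [hC.2.2, mul_assoc]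
          _ = a := by rw [h2, ha]
      have hgb : g * b = b := (hab g hgg).mp hga
      have h4 : g * T α b = T α b := by
        rw [← hC.2.1, hgb]
      rw [hcomp, h3, h4, map_mul, mul_assoc, hb]
    · -- `e = s e' q` with `q s = 1`
      rw [hH] at hq he'
      set s := c * H α a with hsdef
      have hιqs : ι Γ α q * ι Γ α s = 1 := by rw [← map_mul, hq, map_one]
      have he'2 : e' = ι Γ α q * (e * ι Γ α s) := by
        rw [he']
        calc e' = 1 * e' * 1 := by rw [one_mul, mul_one]
          _ = ι Γ α q * ι Γ α s * e' * (ι Γ α q * ι Γ α s) := by rw [hιqs]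
          _ = _ := by simp only [mul_assoc]
      have he'e' : e' * e' = e' := by
        have h5 : ι Γ α s * (e' * e' * ι Γ α q) = ι Γ α s * (e' * ι Γ α q) := by
          calc ι Γ α s * (e' * e' * ι Γ α q)
              = ι Γ α s * (e' * (1 * (e' * ι Γ α q))) := by rw [one_mul, mul_assoc]
            _ = ι Γ α s * (e' * (ι Γ α q * ι Γ α s * (e' * ι Γ α q))) := by rw [hιqs]
            _ = (ι Γ α s * (e' * ι Γ α q)) * (ι Γ α s * (e' * ι Γ α q)) := by
                simp only [mul_assoc]
            _ = ι Γ α s * (e' * ι Γ α q) := by rw [← he', he]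
        calc e' * e' = (ι Γ α q * ι Γ α s) * (e' * e') * (ι Γ α q * ι Γ α s) := by
              rw [hιqs, one_mul, mul_one]
          _ = ι Γ α q * (ι Γ α s * (e' * e' * ι Γ α q)) * ι Γ α s := by simp only [mul_assoc]
          _ = ι Γ α q * (ι Γ α s * (e' * ι Γ α q)) * ι Γ α s := by rw [h5]
          _ = (ι Γ α q * ι Γ α s) * e' * (ι Γ α q * ι Γ α s) := by simp only [mul_assoc]
          _ = e' := by rw [hιqs, one_mul, mul_one]
      have hca : ι Γ α c * a = ι Γ α s * T α a := by
        conv_lhs => rw [← ha]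
        rw [← mul_assoc, ← map_mul]
      have he'w : e' * T α a = T α a := by
        rw [he'2]
        calc ι Γ α q * (e * ι Γ α s) * T α a
            = ι Γ α q * (e * (ι Γ α s * T α a)) := by simp only [mul_assoc]
          _ = ι Γ α q * (ι Γ α s * T α a) := by rw [← hca, hfix]
          _ = T α a := by rw [← mul_assoc, hιqs, one_mul]
      have hqc : q * (c * H α a) = 1 := hq
      -- the idempotent `e'' = a_α e' q c`
      have hιqc : ι Γ α q * (ι Γ α c * ι Γ α (H α a)) = 1 := by
        rw [← map_mul, ← map_mul, hqc, map_one]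
      have hidem : (ι Γ α (H α a) * (e' * (ι Γ α q * ι Γ α c))) *
          (ι Γ α (H α a) * (e' * (ι Γ α q * ι Γ α c))) =
          ι Γ α (H α a) * (e' * (ι Γ α q * ι Γ α c)) := by
        calc (ι Γ α (H α a) * (e' * (ι Γ α q * ι Γ α c))) *
              (ι Γ α (H α a) * (e' * (ι Γ α q * ι Γ α c)))
            = ι Γ α (H α a) * (e' * ((ι Γ α q * (ι Γ α c * ι Γ α (H α a))) *
                (e' * (ι Γ α q * ι Γ α c)))) := by simp only [mul_assoc]
          _ = ι Γ α (H α a) * (e' * e' * (ι Γ α q * ι Γ α c)) := by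
              rw [hιqc, one_mul, mul_assoc]
          _ = _ := by rw [he'e']
      have hfa : ι Γ α (H α a) * (e' * (ι Γ α q * ι Γ α c)) * a = a := by
        calc ι Γ α (H α a) * (e' * (ι Γ α q * ι Γ α c)) * a
            = ι Γ α (H α a) * (e' * ((ι Γ α q * (ι Γ α c * ι Γ α (H α a))) * T α a)) := by
              conv_lhs => rw [← ha]
              simp only [mul_assoc, H_ι_mul, H_T, mul_one]
          _ = ι Γ α (H α a) * T α a := by rw [hιqc, one_mul, he'w]
          _ = a := ha
      have hfb := (hab _ hidem).mp hfa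
      have hfb2 : e' * (ι Γ α q * (ι Γ α c * b)) = ι Γ α q * (ι Γ α c * b) := by
        calc e' * (ι Γ α q * (ι Γ α c * b))
            = (ι Γ α q * (ι Γ α c * ι Γ α (H α a))) * (e' * (ι Γ α q * (ι Γ α c * b))) := by
              rw [hιqc, one_mul]
          _ = ι Γ α q * (ι Γ α c *
                (ι Γ α (H α a) * (e' * (ι Γ α q * ι Γ α c)) * b)) := by
              simp only [mul_assoc]
          _ = ι Γ α q * (ι Γ α c * b) := by rw [hfb]
      have hsq : (s * q) * (s * q) = s * q := by
        calc (s * q) * (s * q) = s * (q * s) * q := by simp only [mul_assoc]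
          _ = s * q := by rw [hq, mul_one]
      have h6 : (s * q) * (c * H α b) = c * H α b := by
        refine (hHc (s * q) hsq).mp ?_
        rw [mul_assoc, hq, mul_one]
      have h7 : ι Γ α s * (ι Γ α q * (ι Γ α c * b)) = ι Γ α c * b := by
        calc ι Γ α s * (ι Γ α q * (ι Γ α c * b))
            = ι Γ α ((s * q) * (c * H α b)) * T α b := by
              conv_lhs => rw [← hb]
              simp only [map_mul, mul_assoc]
          _ = ι Γ α c * b := by rw [h6, map_mul, mul_assoc, hb]
      rw [he']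
      calc ι Γ α s * (e' * ι Γ α q) * (ι Γ α c * b)
          = ι Γ α s * (e' * (ι Γ α q * (ι Γ α c * b))) := by simp only [mul_assoc]
        _ = ι Γ α c * b := by rw [hfb2, h7]

lemma rTilde_symm {S : Type*} [Monoid S] {a b : S} (h : RTilde S a b) : RTilde S b a :=
  fun e he => (h e he).symm

lemma letter_case (h : ∀ α, IsLeftCongruence (RTilde (M α))) {a b : GraphProduct Γ M}
    (hab : RTilde (GraphProduct Γ M) a b) {α : V} (c : M α) :
    RTilde (GraphProduct Γ M) (ι Γ α c * a) (ι Γ α c * b) :=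
  fun _ he => ⟨one_direction h hab c he, one_direction h (rTilde_symm hab) c he⟩

lemma rTilde_equivalence (S : Type*) [Monoid S] : Equivalence (RTilde S) :=
  ⟨fun _ _ _ => Iff.rfl, fun h e he => (h e he).symm,
    fun h1 h2 e he => (h1 e he).trans (h2 e he)⟩

/-- **`R~` is a left congruence on graph products.**  Let `Γ` be a simple graph on an
arbitrary vertex set `V` and `M α` (`α ∈ V`) monoids such that `R~` is a left congruence on
each `M α`.  Then `R~` is a left congruence on the graph product. -/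
theorem result {V : Type u} (Γ : SimpleGraph V) (M : V → Type v) [∀ α, Monoid (M α)]
    (h : ∀ α, IsLeftCongruence (RTilde (M α))) :
    IsLeftCongruence (RTilde (GraphProduct Γ M)) := by
  refine ⟨rTilde_equivalence _, ?_⟩
  intro a b c hab
  obtain ⟨w, rfl⟩ := mk_surj c
  induction w with
  | nil => simpa [mk_nil] using hab
  | cons x w ih =>
    rw [mk_cons, mul_assoc, mul_assoc, mk_singleton]
    exact letter_case h ih x.2

end Pool.Agent.Results.MP_96aaf1_al.GraphProductLeftCongruence
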